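import Pool.Agent.AT3.Stmts3
import Pool.Agent.Helper66_DF.FinE

/-!
FNT: the final theorem of the squad AT3.
-/

open scoped BigOperators

noncomputable section

namespace Pool.Agent.PP.T3.H66

open Pool.Agent.Helper51_AWC Pool.Agent.Helper79_WRA Pool.Agent.PP Pool.Agent.PP.KF
open Pool.Agent.PP.K9 Pool.Agent.PP.K9.H97 Pool.Agent.PP.H75

attribute [local instance] Ideal.Quotient.field

/-- the centraliser of `V` is contained in the inertial group of `γ` -/
theorem cent_le_Tg {ℓ : ℕ} {F : Type} [Field F] {G : Type} [Group G] [Finite G] {e : G → F}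
    {V : Subgroup G} {γ : G → F} (h : Ld ℓ e V γ) :
    Subgroup.centralizer (V : Set G) ≤ Tg V γ := by
  intro c hc
  refine Subgroup.mem_inf.2 ⟨?_, ?_⟩
  · rw [Subgroup.mem_normalizer_iff]
    intro x
    rw [Subgroup.mem_centralizer_iff] at hc
    constructor
    · intro hx
      have h1 := hc x hx
      rw [← h1, mul_inv_cancel_right]
      exact hx
    · intro hx
      have h1 := hc _ hx
      have h2 : x = c⁻¹ * (c * x * c⁻¹) * c := by group
      have h3 : c⁻¹ * (c * x * c⁻¹) * c = c * x * c⁻¹ := by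
        rw [mul_assoc, h1, inv_mul_cancel_left]
      rw [h2, h3]
      exact hx
  · exact (cj_eq_iff _ _).1 (h.gam.ix.inv hc)

theorem fnt (hP : PsgStmt) (hF : FltStmt) (hQ : QtdStmt) (hQ1 : Qt1Stmt) (hT : T3aStmt) :
    FntStmt := by
  intro ℓ hfact M _ hM h5 G _ _ hc χ hχ D hD hDZ hab θ hθ hI
  have hℓ := hfact.out
  have hGF : GoodF ℓ (FF M) := H50.fld ℓ hℓ M hM
  obtain ⟨e, he, h1, h2⟩ := H50.bid ℓ hℓ M hM G χ hχ
  have hn : (opCore ℓ G).Normal := H75.opCore_normal (A := G) ℓ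
  obtain ⟨p, hp⟩ : ∃ p : G →* G ⧸ opCore ℓ G, p = QuotientGroup.mk' (opCore ℓ G) := ⟨_, rfl⟩
  have hker : p.ker = opCore ℓ G := by
    rw [hp]
    exact QuotientGroup.ker_mk' _
  have hsurj : Function.Surjective p := by
    rw [hp]
    exact QuotientGroup.mk'_surjective (opCore ℓ G)
  have hkp : IsPGroup ℓ p.ker := by
    rw [hker]
    exact H75.opCore_isPGroup hℓ
  have hkc : p.ker ≤ Subgroup.center G := by
    rw [hker]
    exact hc
  have heq := H75.altSum_central H20.nls H20.brm H63.smt H94.nch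
    (H50.dic H20.ibn H20.nls H20.brm) hℓ M hM hGF hsurj hker hkp hkc χ hχ e he h1 h2
  have hbf : IsBlk (push p e) := hP ℓ (FF M) hGF G (G ⧸ opCore ℓ G) p hsurj hkc hkp e he
  obtain ⟨γ, hγ, hTg⟩ := hF ℓ M hM G χ hχ e he h1 D hD hab θ hθ
  have hix : 3 * ix D γ ≤ ℓ := by
    have e1 : ix D γ * Nat.card (Subgroup.centralizer (D : Set G)) = Nat.card (Tg D γ) := by
      unfold ix
      rw [mul_comm]
      have := Subgroup.card_mul_index ((Subgroup.centralizer (D : Set G)).subgroupOf (Tg D γ))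
      rw [Nat.card_congr (Subgroup.subgroupOfEquivOfLe (cent_le_Tg hγ)).toEquiv] at this
      exact this
    have e2 : (Iner M D θ).ncard = Nat.card (Tg D γ) := by
      rw [← hTg]
      rfl
    rw [e2, ← e1] at hI
    have e3 : 0 < Nat.card (Subgroup.centralizer (D : Set G)) := Nat.card_pos
    rw [← mul_assoc] at hI
    exact Nat.le_of_mul_le_mul_right hI e3
  -- the normaliser of the core
  obtain ⟨q, hq⟩ : ∃ q : Subgroup.normalizer (opCore ℓ G : Set G) →* G ⧸ opCore ℓ G,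
      q = p.comp (Subgroup.normalizer (opCore ℓ G : Set G)).subtype := ⟨_, rfl⟩
  have hnt : Subgroup.normalizer (opCore ℓ G : Set G) = ⊤ :=
    Subgroup.normalizer_eq_top (opCore ℓ G)
  have hqs : Function.Surjective q := by
    intro y
    obtain ⟨x, hx⟩ := hsurj y
    refine ⟨⟨x, hnt ▸ Subgroup.mem_top x⟩, ?_⟩
    rw [hq]
    exact hx
  have hqk : q.ker = (opCore ℓ G).subgroupOf (Subgroup.normalizer (opCore ℓ G : Set G)) := by
    ext x
    rw [MonoidHom.mem_ker, Subgroup.mem_subgroupOf, hq]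
    have h3 : (x : G) ∈ p.ker ↔ (x : G) ∈ opCore ℓ G := by rw [hker]
    rw [← h3, MonoidHom.mem_ker]
    rfl
  have hbr : br (opCore ℓ G) e = e := by
    funext t
    unfold br
    rw [if_pos]
    rw [Subgroup.mem_centralizer_iff]
    intro z hz
    exact (Subgroup.mem_center_iff.1 (hc hz) t).symm
  have hpq : push q (fun t : Subgroup.normalizer (opCore ℓ G : Set G) => br (opCore ℓ G) e t) =
      push p e := by
    classical
    have := Fintype.ofFinite G
    have := Fintype.ofFinite (Subgroup.normalizer (opCore ℓ G : Set G))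
    rw [hbr]
    funext y
    rw [push_eq, push_eq]
    refine Fintype.sum_bijective
      (fun x : Subgroup.normalizer (opCore ℓ G : Set G) => (x : G))
      ⟨Subtype.val_injective, fun g => ⟨⟨g, hnt ▸ Subgroup.mem_top g⟩, rfl⟩⟩ _ _ fun x => ?_
    rw [hq]
    rfl
  have hopp : IsPGroup ℓ (opCore ℓ G) := H75.opCore_isPGroup hℓ
  obtain ⟨V', γ', hV', hcard, hixle⟩ := hQ ℓ M hM G e D γ hγ (opCore ℓ G) hopp (G ⧸ opCore ℓ G) q
    hqs hqk (push p e) hbf (by rw [hpq]; exact hbf.1.2)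
  obtain ⟨k, hk, -⟩ := hQ1 ℓ M hM G e D γ hγ (opCore ℓ G) hopp (G ⧸ opCore ℓ G) q
    hqs hqk (push p e) hbf (by rw [hpq]; exact hbf.1.2)
  have hZD : opCore ℓ G ≤ D := by
    intro z hz
    have h3 : k * z * k⁻¹ ∈ opCore ℓ G := hn.conj_mem z hz k
    obtain ⟨d, hd, hdk⟩ := hk h3
    have h4 : k * d * k⁻¹ = k * z * k⁻¹ := hdk
    have h5 : d = z := mul_left_cancel (mul_right_cancel h4)
    rw [← h5]
    exact hd
  have hV'b : V' ≠ ⊥ := by
    rintro rfl
    rw [Subgroup.card_bot, one_mul] at hcard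
    exact hDZ (Subgroup.eq_of_le_of_card_ge hZD (le_of_eq hcard.symm)).symm
  have h0 : YY ℓ (⊤ : Subgroup (G ⧸ opCore ℓ G)) (push p e) = 0 :=
    hT ℓ M hM (G ⧸ opCore ℓ G) (push p e) V' γ' hV' hV'b h5 (by omega)
  rw [h0, mul_zero] at heq
  rcases mul_eq_zero.1 heq with h | h
  · exact absurd h (by exact_mod_cast (Nat.card_pos (α := G)).ne')
  · exact h

end Pool.Agent.PP.T3.H66
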